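import Mathlib
import Pool.Agent.Q181.SHDSigma

/-!
MP_8ff099_gt, Q1 (disproof): for the Σ-product `X` of the Cantor cube `2^𝔠`, `βX` is SHD but `X` is
not.
-/

namespace Pool.Agent.Results.MP_8ff099_gt.StoneCechSHD

open Pool.Agent.Q181.SHDSigma

/-- There is a non-compact Tychonoff space `X` with `βX` SHD and `X` not SHD. -/
theorem result : ∃ (X : Type) (_ : TopologicalSpace X), T35Space X ∧ ¬ CompactSpace X ∧
    SHD (StoneCech X) ∧ ¬ SHD X :=
  ⟨Sig Idx, inferInstance, inferInstance, not_compact_sig, shd_stoneCech, not_shd_sig Idx⟩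

end Pool.Agent.Results.MP_8ff099_gt.StoneCechSHD
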